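import Pool.Agent.Lib.MP_3ee548_nt.RS.Iface

set_option autoImplicit false

open scoped BigOperators
open MeasureTheory

namespace Pool.Agent.Lib.MP_3ee548_nt.RS.H89

open Pool.Agent.Lib.MP_3ee548_nt.RS

lemma e_continuous : Continuous e := by
  unfold e
  fun_prop

lemma S_continuous (n : ℕ) : Continuous (fun t : ℝ => ∑ m ∈ I n, e (t * sqf m)) := by
  apply continuous_finsetSum
  intro m _
  exact e_continuous.comp (by fun_prop)

lemma A_mono (r n : ℕ) {η η' : ℝ} (h : η ≤ η') : A r n η ≤ A r n η' := by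
  unfold A
  apply Finset.card_le_card
  intro p hp
  rw [Finset.mem_filter] at hp ⊢
  exact ⟨hp.1, hp.2.trans h⟩

/-- bound of the pair count from the case r = 2. -/
lemma pc_bound (hred : PcredStatement) (hpc2 : Pc2Statement) (q : ℕ) (ε : ℝ) (hε : 0 < ε) :
    ∃ C : ℝ, 0 < C ∧ ∀ (n : ℕ) (T : ℝ), 1 ≤ n → 0 < T →
      PC (sig (q + 2)) (IV (q + 2) n) T ≤
        C * (n : ℝ) ^ ε * (n : ℝ) ^ (2 * q) * ((n : ℝ) ^ 2 + (n : ℝ) ^ (7 / 2 : ℝ) / T) := by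
  obtain ⟨C, hC, h⟩ := hpc2 ε hε
  refine ⟨4 ^ q * C, by positivity, fun n T hn hT => ?_⟩
  have h1 := hred q n T hn hT
  have h2 := h n T hn hT
  have hx : (0 : ℝ) < (n : ℝ) := by exact_mod_cast hn
  calc PC (sig (q + 2)) (IV (q + 2) n) T
      ≤ (4 * (n : ℝ) ^ 2) ^ q * PC (sig 2) (IV 2 n) T := h1
    _ ≤ (4 * (n : ℝ) ^ 2) ^ q * (C * (n : ℝ) ^ ε * ((n : ℝ) ^ 2 + (n : ℝ) ^ (7 / 2 : ℝ) / T)) := by
        gcongr
    _ = 4 ^ q * C * (n : ℝ) ^ ε * (n : ℝ) ^ (2 * q) * ((n : ℝ) ^ 2 + (n : ℝ) ^ (7 / 2 : ℝ) / T) := by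
        rw [mul_pow, ← pow_mul]; ring

lemma two_pow_sub_pos {k : ℕ} (hk : 3 ≤ k) : (0 : ℝ) < 2 ^ k - 2 := by
  have h : (2 : ℝ) ^ 3 ≤ 2 ^ k := pow_le_pow_right₀ (by norm_num) hk
  linarith

/-- the defining equation of theta. -/
lemma theta_eq (q k : ℕ) (hk : 3 ≤ k) :
    theta (q + 2) k * (1 + 2 * q * (1 / ((2 : ℝ) ^ k - 2)))
      = 2 * q * ((2 * (k : ℝ) - 1) / (2 * ((2 : ℝ) ^ k - 2))) + 3 / 2 := by
  have h1 := two_pow_sub_pos hk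
  obtain ⟨j, rfl⟩ : ∃ j, k = j + 1 := ⟨k - 1, by omega⟩
  have h2 : (2 : ℝ) ^ (j + 1) = 2 * 2 ^ j := by ring
  have h3 : (0 : ℝ) < 2 ^ j - 1 := by
    rw [h2] at h1; linarith
  have h4 : (0 : ℝ) < 2 ^ j + ((q + 2 : ℕ) : ℝ) - 3 := by
    push_cast
    have : (0 : ℝ) ≤ q := Nat.cast_nonneg q
    linarith
  unfold theta
  simp only [Nat.add_sub_cancel]
  rw [h2]
  have h5 : (2 : ℝ) * 2 ^ j - 2 ≠ 0 := by
    have : (0 : ℝ) < 2 * 2 ^ j - 2 := by linarith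
    exact this.ne'
  have h6 : (2 : ℝ) ^ j + ((q + 2 : ℕ) : ℝ) - 3 ≠ 0 := h4.ne'
  push_cast at h6 ⊢
  have h7 : (2 : ℝ) ^ j - 1 ≠ 0 := h3.ne'
  have h8 : (2 : ℝ) * 2 ^ j - 2 = 2 * (2 ^ j - 1) := by ring
  rw [h8]
  field_simp
  ring

lemma theta_ge (q k : ℕ) (hk : 3 ≤ k) : 3 / 2 ≤ theta (q + 2) k := by
  have h0 := theta_eq q k hk
  have h1 := two_pow_sub_pos hk
  have hq : (0 : ℝ) ≤ q := Nat.cast_nonneg q
  have hk' : (3 : ℝ) ≤ k := by exact_mod_cast hk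
  set D : ℝ := 1 / ((2 : ℝ) ^ k - 2) with hD
  have hDpos : 0 < D := by rw [hD]; positivity
  have h2 : (2 * (k : ℝ) - 1) / (2 * ((2 : ℝ) ^ k - 2)) = (2 * (k : ℝ) - 1) / 2 * D := by
    rw [hD]; field_simp
  rw [h2] at h0
  have h3 : 0 < 1 + 2 * q * D := by positivity
  have h4 : 3 / 2 * (1 + 2 * q * D) ≤ theta (q + 2) k * (1 + 2 * q * D) := by
    rw [h0]
    have : (0 : ℝ) ≤ q * D := by positivity
    nlinarith
  exact le_of_mul_le_mul_right h4 h3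

/-- the pair count in the middle range. -/
lemma pc_mid (hred : PcredStatement) (hm1 : Mom1Statement) (hm2 : Mom2Statement)
    (hpc2 : Pc2Statement) (hsup : SupbStatement) (q k : ℕ) (hk : 3 ≤ k) (ε : ℝ) (hε : 0 < ε) :
    ∃ C : ℝ, 0 < C ∧ ∀ (n : ℕ) (T : ℝ), 1 ≤ n → (n : ℝ) ^ (3 / 2 : ℝ) ≤ T →
      T ≤ (n : ℝ) ^ theta (q + 2) k →
      PC (sig (q + 2)) (IV (q + 2) n) T ≤
        C * (n : ℝ) ^ ε * (n : ℝ) ^ (2 * q) * (n : ℝ) ^ (7 / 2 : ℝ) / T := by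
  obtain ⟨C1, hC1, h1⟩ := pc_bound hred hpc2 q ε hε
  obtain ⟨C2, hC2, h2⟩ := hm2
  obtain ⟨C3, hC3, h3⟩ := hpc2 ε hε
  obtain ⟨C4, hC4, h4⟩ := hsup k hk
  refine ⟨16 * (C2 * (C1 * 2) + C4 ^ (2 * q) * (C2 * (C3 * 2))), by positivity, ?_⟩
  intro n T hn hT0 hTθ
  set x : ℝ := (n : ℝ) with hx
  have hx1 : 1 ≤ x := by rw [hx]; exact_mod_cast hn
  have hx0 : 0 < x := by linarith
  set T0 : ℝ := x ^ (3 / 2 : ℝ) with hT0def
  have hT0pos : 0 < T0 := Real.rpow_pos_of_pos hx0 _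
  have hTpos : 0 < T := lt_of_lt_of_le hT0pos hT0
  set S : ℝ → ℂ := fun t : ℝ => ∑ m ∈ I n, e (t * sqf m) with hS
  have hScont : Continuous S := S_continuous n
  have hx72 : x ^ (7 / 2 : ℝ) = T0 * x ^ 2 := by
    rw [hT0def, ← Real.rpow_natCast x 2, ← Real.rpow_add hx0]; norm_num
  have hx2 : 0 < x ^ 2 := by positivity
  -- the first integral
  have hI1 : ∫ t in (0 : ℝ)..T0, ‖S t‖ ^ (2 * (q + 2)) ≤
      C2 * (C1 * 2) * (x ^ ε * x ^ (2 * q) * x ^ (7 / 2 : ℝ)) := by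
    have ha := h2 (q + 2) n T0 hT0pos
    have hb := h1 n T0 hn hT0pos
    have hc : x ^ (7 / 2 : ℝ) / T0 = x ^ 2 := by
      rw [hx72]; field_simp
    rw [← hx, hc] at hb
    calc ∫ t in (0 : ℝ)..T0, ‖S t‖ ^ (2 * (q + 2))
        ≤ C2 * T0 * PC (sig (q + 2)) (IV (q + 2) n) T0 := ha
      _ ≤ C2 * T0 * (C1 * x ^ ε * x ^ (2 * q) * (x ^ 2 + x ^ 2)) := by gcongr
      _ = C2 * (C1 * 2) * (x ^ ε * x ^ (2 * q) * (T0 * x ^ 2)) := by ring
      _ = _ := by rw [hx72]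
  -- the fourth moment
  have hI4 : ∫ t in (0 : ℝ)..T, ‖S t‖ ^ 4 ≤ C2 * T * (C3 * 2 * (x ^ ε * x ^ 2)) := by
    have ha := h2 2 n T hTpos
    have hb := h3 n T hn hTpos
    have hc : x ^ (7 / 2 : ℝ) / T ≤ x ^ 2 := by
      rw [hx72, div_le_iff₀ hTpos, mul_comm]
      gcongr
    calc ∫ t in (0 : ℝ)..T, ‖S t‖ ^ 4
        ≤ C2 * T * PC (sig 2) (IV 2 n) T := ha
      _ ≤ C2 * T * (C3 * x ^ ε * (x ^ 2 + x ^ (7 / 2 : ℝ) / T)) := by gcongr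
      _ ≤ C2 * T * (C3 * x ^ ε * (x ^ 2 + x ^ 2)) := by gcongr
      _ = C2 * T * (C3 * 2 * (x ^ ε * x ^ 2)) := by ring
  set b : ℝ := 1 / ((2 : ℝ) ^ k - 2) with hb
  set a : ℝ := 1 - (2 * (k : ℝ) - 1) / (2 * ((2 : ℝ) ^ k - 2)) with ha
  have hDpos := two_pow_sub_pos hk
  have hbpos : 0 < b := by rw [hb]; positivity
  set M : ℝ := C4 * x ^ a * T ^ b with hM
  have hMpos : 0 < M := by positivity
  have hsupT : ∀ t ∈ Set.Icc T0 T, ‖S t‖ ≤ M := fun t ht => h4 n t T hn ht.1 ht.2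
  -- the second integral
  have hI2 : ∫ t in T0..T, ‖S t‖ ^ (2 * (q + 2)) ≤ M ^ (2 * q) * ∫ t in (0 : ℝ)..T, ‖S t‖ ^ 4 := by
    have hii : ∀ (p : ℕ) (u v : ℝ), IntervalIntegrable (fun t => ‖S t‖ ^ p) volume u v := by
      intro p u v
      exact (hScont.norm.pow p).intervalIntegrable u v
    have hstep : ∫ t in T0..T, ‖S t‖ ^ (2 * (q + 2)) ≤ ∫ t in T0..T, M ^ (2 * q) * ‖S t‖ ^ 4 := by
      apply intervalIntegral.integral_mono_on hT0 (hii _ _ _) ((hii 4 _ _).const_mul _)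
      intro t ht
      have h5 := hsupT t ht
      have h6 : ‖S t‖ ^ (2 * (q + 2)) = ‖S t‖ ^ (2 * q) * ‖S t‖ ^ 4 := by
        rw [← pow_add]; congr 1
      rw [h6]
      gcongr
    have h7 : ∫ t in T0..T, ‖S t‖ ^ 4 ≤ ∫ t in (0 : ℝ)..T, ‖S t‖ ^ 4 := by
      apply intervalIntegral.integral_mono_interval hT0pos.le hT0 le_rfl
      · exact Filter.Eventually.of_forall (fun t => by positivity)
      · exact hii 4 _ _
    calc ∫ t in T0..T, ‖S t‖ ^ (2 * (q + 2)) ≤ ∫ t in T0..T, M ^ (2 * q) * ‖S t‖ ^ 4 := hstep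
      _ = M ^ (2 * q) * ∫ t in T0..T, ‖S t‖ ^ 4 := intervalIntegral.integral_const_mul _ _
      _ ≤ _ := by gcongr
  -- the exponents
  have hexp : (x ^ a * T ^ b) ^ (2 * q) * T ≤ x ^ (2 * q) * x ^ (3 / 2 : ℝ) := by
    have e1 : (x ^ a * T ^ b) ^ (2 * q) * T = x ^ (a * (2 * q : ℕ)) * T ^ (b * (2 * q : ℕ) + 1) := by
      rw [mul_pow, ← Real.rpow_natCast (x ^ a), ← Real.rpow_mul hx0.le,
        ← Real.rpow_natCast (T ^ b), ← Real.rpow_mul hTpos.le, Real.rpow_add_one hTpos.ne', mul_assoc]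
    have e2 : T ^ (b * (2 * q : ℕ) + 1) ≤ (x ^ theta (q + 2) k) ^ (b * (2 * q : ℕ) + 1) := by
      apply Real.rpow_le_rpow hTpos.le hTθ
      positivity
    rw [e1]
    calc x ^ (a * (2 * q : ℕ)) * T ^ (b * (2 * q : ℕ) + 1)
        ≤ x ^ (a * (2 * q : ℕ)) * (x ^ theta (q + 2) k) ^ (b * (2 * q : ℕ) + 1) := by gcongr
      _ = x ^ ((2 * q : ℕ) : ℝ) * x ^ (3 / 2 : ℝ) := by
          rw [← Real.rpow_mul hx0.le, ← Real.rpow_add hx0, ← Real.rpow_add hx0]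
          congr 1
          have h0 := theta_eq q k hk
          rw [← hb] at h0
          push_cast
          rw [ha]
          linear_combination h0
      _ = _ := by rw [Real.rpow_natCast]
  have hsplit : ∫ t in (0 : ℝ)..T, ‖S t‖ ^ (2 * (q + 2)) =
      (∫ t in (0 : ℝ)..T0, ‖S t‖ ^ (2 * (q + 2))) + ∫ t in T0..T, ‖S t‖ ^ (2 * (q + 2)) := by
    rw [intervalIntegral.integral_add_adjacent_intervals]
    · exact (hScont.norm.pow _).intervalIntegrable _ _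
    · exact (hScont.norm.pow _).intervalIntegrable _ _
  have hfin := hm1 (q + 2) n T hTpos
  have hxε : 0 < x ^ ε := Real.rpow_pos_of_pos hx0 _
  have hI2' : ∫ t in T0..T, ‖S t‖ ^ (2 * (q + 2)) ≤
      C4 ^ (2 * q) * (C2 * (C3 * 2)) * (x ^ ε * x ^ (2 * q) * x ^ (7 / 2 : ℝ)) := by
    calc ∫ t in T0..T, ‖S t‖ ^ (2 * (q + 2)) ≤ M ^ (2 * q) * ∫ t in (0 : ℝ)..T, ‖S t‖ ^ 4 := hI2
      _ ≤ M ^ (2 * q) * (C2 * T * (C3 * 2 * (x ^ ε * x ^ 2))) := by gcongr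
      _ = C4 ^ (2 * q) * (C2 * (C3 * 2)) * (x ^ ε * x ^ 2) * ((x ^ a * T ^ b) ^ (2 * q) * T) := by
          rw [hM]; ring
      _ ≤ C4 ^ (2 * q) * (C2 * (C3 * 2)) * (x ^ ε * x ^ 2) * (x ^ (2 * q) * x ^ (3 / 2 : ℝ)) := by
          gcongr
      _ = C4 ^ (2 * q) * (C2 * (C3 * 2)) * (x ^ ε * x ^ (2 * q) * (T0 * x ^ 2)) := by
          rw [hT0def]; ring
      _ = _ := by rw [hx72]
  calc PC (sig (q + 2)) (IV (q + 2) n) T
      ≤ 16 / T * ∫ t in (0 : ℝ)..T, ‖S t‖ ^ (2 * (q + 2)) := hfin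
    _ ≤ 16 / T * (C2 * (C1 * 2) * (x ^ ε * x ^ (2 * q) * x ^ (7 / 2 : ℝ)) +
          C4 ^ (2 * q) * (C2 * (C3 * 2)) * (x ^ ε * x ^ (2 * q) * x ^ (7 / 2 : ℝ))) := by
        rw [hsplit]; gcongr
    _ = _ := by ring

theorem main (hared : AredStatement) (hred : PcredStatement) (hm1 : Mom1Statement)
    (hm2 : Mom2Statement) (hpc2 : Pc2Statement) (hsup : SupbStatement) : MainStatement := by
  intro r k hr hk ε hε
  obtain ⟨q, rfl⟩ : ∃ q, r = q + 2 := ⟨r - 2, by omega⟩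
  obtain ⟨C0, hC0, h0⟩ := hared (q + 2)
  obtain ⟨C1, hC1, h1⟩ := pc_bound hred hpc2 q ε hε
  obtain ⟨C2, hC2, h2⟩ := pc_mid hred hm1 hm2 hpc2 hsup q k hk ε hε
  refine ⟨C0 * (2 * C1) + C0 * C2, by positivity, ?_⟩
  intro n η hn hη hη2
  set x : ℝ := (n : ℝ) with hx
  have hx1 : 1 ≤ x := by rw [hx]; exact_mod_cast hn
  have hx0 : 0 < x := by linarith
  have hxε : 0 < x ^ ε := Real.rpow_pos_of_pos hx0 _
  have hsq : Real.sqrt x = x ^ (1 / 2 : ℝ) := Real.sqrt_eq_rpow x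
  have hkey : x ^ (1 / 2 : ℝ) * (x ^ (2 * q) * x ^ (7 / 2 : ℝ)) = x ^ (2 * (q + 2)) := by
    rw [← Real.rpow_natCast x (2 * q), ← Real.rpow_natCast x (2 * (q + 2)), ← Real.rpow_add hx0,
      ← Real.rpow_add hx0]
    congr 1
    push_cast
    ring
  have hθ : 0 < x ^ (2 * ((q + 2 : ℕ) : ℝ) - theta (q + 2) k) := Real.rpow_pos_of_pos hx0 _
  have hxp : 0 < x ^ (2 * (q + 2)) := by positivity
  rcases le_or_gt (1 / η) (x ^ (3 / 2 : ℝ)) with hT | hT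
  · -- large eta
    have hT1 : 0 < 1 / η := by positivity
    have ha := h0 n η hn hη
    have hb := h1 n (1 / η) hn hT1
    have hx72 : x ^ (7 / 2 : ℝ) = x ^ (3 / 2 : ℝ) * x ^ 2 := by
      rw [← Real.rpow_natCast x 2, ← Real.rpow_add hx0]; norm_num
    have hc : x ^ 2 ≤ x ^ (7 / 2 : ℝ) / (1 / η) := by
      rw [hx72, le_div_iff₀ hT1, mul_comm]
      gcongr
    have hd : PC (sig (q + 2)) (IV (q + 2) n) (1 / η) ≤
        C1 * x ^ ε * x ^ (2 * q) * (2 * (x ^ (7 / 2 : ℝ) * η)) := by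
      have this : x ^ (7 / 2 : ℝ) / (1 / η) = x ^ (7 / 2 : ℝ) * η := by field_simp
      rw [this] at hc
      rw [← hx, this] at hb
      have h9 : x ^ 2 + x ^ (7 / 2 : ℝ) * η ≤ 2 * (x ^ (7 / 2 : ℝ) * η) := by linarith
      refine hb.trans ?_
      have h10 : 0 ≤ C1 * x ^ ε * x ^ (2 * q) := by positivity
      exact mul_le_mul_of_nonneg_left h9 h10
    calc (A (q + 2) n η : ℝ) ≤ C0 * Real.sqrt x * PC (sig (q + 2)) (IV (q + 2) n) (1 / η) := ha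
      _ ≤ C0 * Real.sqrt x * (C1 * x ^ ε * x ^ (2 * q) * (2 * (x ^ (7 / 2 : ℝ) * η))) := by gcongr
      _ = C0 * (2 * C1) * x ^ ε * ((x ^ (1 / 2 : ℝ) * (x ^ (2 * q) * x ^ (7 / 2 : ℝ))) * η) := by
          rw [hsq]; ring
      _ = C0 * (2 * C1) * x ^ ε * (x ^ (2 * (q + 2)) * η) := by rw [hkey]
      _ ≤ (C0 * (2 * C1) + C0 * C2) * x ^ ε *
            (x ^ (2 * ((q + 2 : ℕ) : ℝ) - theta (q + 2) k) + x ^ (2 * (q + 2)) * η) := by
          gcongr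
          · have : 0 ≤ C0 * C2 := by positivity
            linarith
          · linarith
  · -- small eta
    set θ : ℝ := theta (q + 2) k with hθdef
    have hθ32 : 3 / 2 ≤ θ := theta_ge q k hk
    set η' : ℝ := max η (x ^ (-θ)) with hη'
    have hη'pos : 0 < η' := lt_of_lt_of_le hη (le_max_left _ _)
    have hmono : (A (q + 2) n η : ℝ) ≤ (A (q + 2) n η' : ℝ) := by
      exact_mod_cast A_mono (q + 2) n (le_max_left _ _)
    have hT'lo : x ^ (3 / 2 : ℝ) ≤ 1 / η' := by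
      rw [le_div_iff₀ hη'pos]
      have h32 : 0 < x ^ (3 / 2 : ℝ) := Real.rpow_pos_of_pos hx0 _
      rcases le_total η (x ^ (-θ)) with hm | hm
      · rw [hη', max_eq_right hm, ← Real.rpow_add hx0]
        calc x ^ (3 / 2 + -θ) ≤ x ^ (0 : ℝ) := Real.rpow_le_rpow_of_exponent_le hx1 (by linarith)
          _ = 1 := Real.rpow_zero x
      · rw [hη', max_eq_left hm]
        have := (lt_div_iff₀ hη).1 hT
        linarith
    have hT'hi : 1 / η' ≤ x ^ θ := by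
      rw [div_le_iff₀ hη'pos]
      have : x ^ (-θ) ≤ η' := le_max_right _ _
      calc (1 : ℝ) = x ^ θ * x ^ (-θ) := by rw [← Real.rpow_add hx0]; simp
        _ ≤ x ^ θ * η' := by gcongr
    have hT'pos : 0 < 1 / η' := by positivity
    have ha := h0 n η' hn hη'pos
    have hb := h2 n (1 / η') hn hT'lo hT'hi
    have hsum : η' ≤ η + x ^ (-θ) := by
      rw [hη']
      apply max_le
      · have := Real.rpow_pos_of_pos hx0 (-θ); linarith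
      · linarith
    have hpow : x ^ (2 * (q + 2)) * x ^ (-θ) = x ^ (2 * ((q + 2 : ℕ) : ℝ) - θ) := by
      rw [← Real.rpow_natCast x (2 * (q + 2)), ← Real.rpow_add hx0]
      congr 1
      push_cast
      ring
    calc (A (q + 2) n η : ℝ) ≤ (A (q + 2) n η' : ℝ) := hmono
      _ ≤ C0 * Real.sqrt x * PC (sig (q + 2)) (IV (q + 2) n) (1 / η') := ha
      _ ≤ C0 * Real.sqrt x * (C2 * x ^ ε * x ^ (2 * q) * x ^ (7 / 2 : ℝ) / (1 / η')) := by gcongr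
      _ = C0 * C2 * x ^ ε * ((x ^ (1 / 2 : ℝ) * (x ^ (2 * q) * x ^ (7 / 2 : ℝ))) * η') := by
          rw [hsq]; field_simp
      _ = C0 * C2 * x ^ ε * (x ^ (2 * (q + 2)) * η') := by rw [hkey]
      _ ≤ C0 * C2 * x ^ ε * (x ^ (2 * (q + 2)) * (η + x ^ (-θ))) := by gcongr
      _ = C0 * C2 * x ^ ε * (x ^ (2 * ((q + 2 : ℕ) : ℝ) - θ) + x ^ (2 * (q + 2)) * η) := by
          rw [← hpow]; ring
      _ ≤ (C0 * (2 * C1) + C0 * C2) * x ^ ε *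
            (x ^ (2 * ((q + 2 : ℕ) : ℝ) - θ) + x ^ (2 * (q + 2)) * η) := by
          gcongr
          have : 0 ≤ C0 * (2 * C1) := by positivity
          linarith

end Pool.Agent.Lib.MP_3ee548_nt.RS.H89
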