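import Mathlib
import Pool.Agent.Lib.MP_3ee548_nt.RS.Iface

/-!
# Moments of exponential sums over the integers from the counting function (MP_3ee548_nt)
-/

set_option autoImplicit false

open scoped BigOperators
open Classical

namespace Pool.Agent.Lib.MP_3ee548_nt.RS

/-- `M_{2r}(H, n)`, the moment of the sums `S(h, n)` over the integers `H/2 ≤ h ≤ H`. -/
noncomputable def Mom (r : ℕ) (H : ℝ) (n : ℕ) : ℝ :=
  ∑ h ∈ Finset.Icc ⌈H / 2⌉ ⌊H⌋, ‖∑ m ∈ I n, e (h * Real.sqrt m)‖ ^ (2 * r)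

/-- the bound for all moments. -/
def MomStatement : Prop := ∀ r k : ℕ, 2 ≤ r → 3 ≤ k → ∀ ε : ℝ, 0 < ε → ∃ C : ℝ, 0 < C ∧
  ∀ (n : ℕ) (H : ℝ), 1 ≤ n → 1 ≤ H →
  Mom r H n ≤ C * (n : ℝ) ^ ε * (H * (n : ℝ) ^ (2 * (r : ℝ) - theta r k) + (n : ℝ) ^ (2 * r))

namespace H89

/-- distance to the nearest integer. -/
noncomputable def nd (x : ℝ) : ℝ := |x - round x|

theorem nd_le (x : ℝ) : nd x ≤ 1 / 2 := abs_sub_round x

theorem e_add (x y : ℝ) : e (x + y) = e x * e y := by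
  unfold e
  rw [← Complex.exp_add]
  congr 1
  push_cast
  ring

theorem e_int (z : ℤ) : e (z : ℝ) = 1 := by
  unfold e
  rw [Complex.exp_eq_one_iff]
  refine ⟨z, ?_⟩
  push_cast
  ring

theorem norm_e (x : ℝ) : ‖e x‖ = 1 := by
  unfold e
  exact Complex.norm_exp_ofReal_mul_I _

theorem e_nat_mul (j : ℕ) (x : ℝ) : e (j * x) = e x ^ j := by
  unfold e
  rw [← Complex.exp_nat_mul]
  congr 1
  push_cast
  ring

theorem e_sub_round (x : ℝ) : e (x - round x) = e x := by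
  have h : x = (x - round x) + ((round x : ℤ) : ℝ) := by ring
  conv_rhs => rw [h]
  rw [e_add, e_int, mul_one]

theorem norm_e_sub_one (x : ℝ) : 4 * nd x ≤ ‖e x - 1‖ := by
  rw [← e_sub_round x]
  set t : ℝ := x - round x with ht
  have hn : nd x = |t| := rfl
  have ht2 : |t| ≤ 1 / 2 := abs_sub_round x
  have h1 : ‖e t - 1‖ = 2 * |Real.sin (Real.pi * t)| := by
    have h0 : e t - 1 = Complex.exp (((Real.pi * t : ℝ) : ℂ) * Complex.I) *
        (2 * Complex.I * ((Real.sin (Real.pi * t) : ℝ) : ℂ)) := by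
      unfold e
      rw [Complex.ofReal_sin, Complex.sin]
      have h2 : (((2 * Real.pi * t : ℝ) : ℂ) * Complex.I)
          = ((Real.pi * t : ℝ) : ℂ) * Complex.I + ((Real.pi * t : ℝ) : ℂ) * Complex.I := by
        push_cast; ring
      rw [h2, Complex.exp_add]
      have h3 : Complex.exp (((Real.pi * t : ℝ) : ℂ) * Complex.I) *
          Complex.exp (-((Real.pi * t : ℝ) : ℂ) * Complex.I) = 1 := by
        rw [← Complex.exp_add]
        ring_nf
        exact Complex.exp_zero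
      have hI : Complex.I * Complex.I = -1 := Complex.I_mul_I
      linear_combination (1 : ℂ) * h3 + (Complex.exp (((Real.pi * t : ℝ) : ℂ) * Complex.I) *
        (Complex.exp (((Real.pi * t : ℝ) : ℂ) * Complex.I) -
          Complex.exp (-((Real.pi * t : ℝ) : ℂ) * Complex.I))) * hI
    rw [h0, norm_mul, Complex.norm_exp_ofReal_mul_I, one_mul, norm_mul, norm_mul,
      Complex.norm_I, Complex.norm_real, Real.norm_eq_abs]
    norm_num
  rw [h1, hn]
  have h4 : |Real.sin (Real.pi * t)| = Real.sin (Real.pi * |t|) := by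
    rcases le_total 0 t with h | h
    · rw [abs_of_nonneg h, abs_of_nonneg]
      apply Real.sin_nonneg_of_nonneg_of_le_pi (by positivity)
      rw [abs_of_nonneg h] at ht2
      nlinarith [Real.pi_pos]
    · rw [abs_of_nonpos h]
      rw [abs_of_nonpos h] at ht2
      have : Real.pi * -t = -(Real.pi * t) := by ring
      rw [this, Real.sin_neg, abs_of_nonpos]
      have h5 : 0 ≤ Real.sin (-(Real.pi * t)) := by
        apply Real.sin_nonneg_of_nonneg_of_le_pi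
        · nlinarith [Real.pi_pos]
        · nlinarith [Real.pi_pos]
      rw [Real.sin_neg] at h5
      linarith
  rw [h4]
  have h6 : 2 / Real.pi * (Real.pi * |t|) ≤ Real.sin (Real.pi * |t|) := by
    apply Real.mul_le_sin (by positivity)
    nlinarith [Real.pi_pos]
  have h7 : 2 / Real.pi * (Real.pi * |t|) = 2 * |t| := by
    field_simp
  rw [h7] at h6
  linarith

/-- the geometric sum. -/
theorem geom_le (K : ℕ) (x : ℝ) : ‖∑ j ∈ Finset.range K, e (j * x)‖ ≤ K := by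
  calc ‖∑ j ∈ Finset.range K, e (j * x)‖ ≤ ∑ j ∈ Finset.range K, ‖e (j * x)‖ := norm_sum_le _ _
    _ = K := by simp [norm_e]

theorem geom_le' (K : ℕ) (x : ℝ) : ‖∑ j ∈ Finset.range K, e (j * x)‖ * (2 * nd x) ≤ 1 := by
  have h1 : (∑ j ∈ Finset.range K, e (j * x)) * (e x - 1) = e x ^ K - 1 := by
    have : ∀ j ∈ Finset.range K, e (j * x) = e x ^ j := fun j _ => e_nat_mul j x
    rw [Finset.sum_congr rfl this]
    exact geom_sum_mul _ _
  have h2 : ‖∑ j ∈ Finset.range K, e (j * x)‖ * ‖e x - 1‖ ≤ 2 := by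
    rw [← norm_mul, h1]
    calc ‖e x ^ K - 1‖ ≤ ‖e x ^ K‖ + ‖(1 : ℂ)‖ := norm_sub_le _ _
      _ = 2 := by rw [norm_pow, norm_e]; norm_num
  have h3 := norm_e_sub_one x
  nlinarith [norm_nonneg (∑ j ∈ Finset.range K, e (j * x)), h2, h3]

/-- Fejer kernel, layered. -/
theorem layer (N : ℕ) (hN : 1 ≤ N) (x : ℝ) :
    ‖∑ j ∈ Finset.range (2 * N), e (j * x)‖ ^ 2 ≤
      ∑ j ∈ Finset.range (2 * N + 1), 16 * (N : ℝ) ^ 2 * (1 / 4) ^ j *
        (if nd x ≤ min (1 / 2) ((2 : ℝ) ^ j / (4 * N)) then 1 else 0) := by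
  have hNr : (1 : ℝ) ≤ N := by exact_mod_cast hN
  have hN0 : (0 : ℝ) < N := by linarith
  have hnn : ∀ j ∈ Finset.range (2 * N + 1), 0 ≤ 16 * (N : ℝ) ^ 2 * (1 / 4) ^ j *
        (if nd x ≤ min (1 / 2) ((2 : ℝ) ^ j / (4 * N)) then 1 else 0) := by
    intro j _
    split_ifs
    · positivity
    · simp
  have hex : ∃ j : ℕ, nd x ≤ (2 : ℝ) ^ j / (4 * N) := by
    refine ⟨2 * N, (nd_le x).trans ?_⟩
    rw [div_le_div_iff₀ (by norm_num) (by positivity)]
    have : (2 * N : ℕ) < 2 ^ (2 * N) := Nat.lt_two_pow_self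
    have h2 : ((2 * N : ℕ) : ℝ) < (2 : ℝ) ^ (2 * N) := by exact_mod_cast this
    push_cast at h2
    linarith
  classical
  set J := Nat.find hex with hJ
  have hJ1 : nd x ≤ (2 : ℝ) ^ J / (4 * N) := Nat.find_spec hex
  have hJ2 : J ≤ 2 * N := by
    apply Nat.find_min'
    refine (nd_le x).trans ?_
    rw [div_le_div_iff₀ (by norm_num) (by positivity)]
    have : (2 * N : ℕ) < 2 ^ (2 * N) := Nat.lt_two_pow_self
    have h2 : ((2 * N : ℕ) : ℝ) < (2 : ℝ) ^ (2 * N) := by exact_mod_cast this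
    push_cast at h2
    linarith
  have hmem : J ∈ Finset.range (2 * N + 1) := Finset.mem_range.mpr (by omega)
  have hge := Finset.single_le_sum hnn hmem
  refine le_trans ?_ hge
  rw [if_pos (le_min (nd_le x) hJ1), mul_one]
  set G := ‖∑ j ∈ Finset.range (2 * N), e (j * x)‖ with hG
  have hG0 : 0 ≤ G := norm_nonneg _
  rcases Nat.eq_zero_or_pos J with h0 | h0
  · rw [h0, pow_zero, mul_one]
    have h1 : G ≤ 2 * N := by
      have := geom_le (2 * N) x
      push_cast at this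
      exact this
    nlinarith
  · obtain ⟨i, hi⟩ : ∃ i, J = i + 1 := ⟨J - 1, by omega⟩
    have h1 : ¬ nd x ≤ (2 : ℝ) ^ i / (4 * N) := by
      apply Nat.find_min hex
      omega
    push Not at h1
    have h2 : G * (2 * nd x) ≤ 1 := geom_le' (2 * N) x
    have h3 : G * ((2 : ℝ) ^ i / (2 * N)) ≤ 1 := by
      refine le_trans ?_ h2
      apply mul_le_mul_of_nonneg_left _ hG0
      have : (2 : ℝ) ^ i / (2 * N) = 2 * ((2 : ℝ) ^ i / (4 * N)) := by field_simp; ring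
      rw [this]
      linarith
    have h4 : G * (2 : ℝ) ^ i ≤ 2 * N := by
      have : G * ((2 : ℝ) ^ i / (2 * N)) = (G * (2 : ℝ) ^ i) / (2 * N) := by ring
      rw [this, div_le_one (by positivity)] at h3
      exact h3
    rw [hi, pow_succ (1 / 4 : ℝ) i]
    have h5 : (1 / 4 : ℝ) ^ i = 1 / ((2 : ℝ) ^ i) ^ 2 := by
      rw [← pow_mul, mul_comm i 2, pow_mul, one_div_pow]
      norm_num
    rw [h5]
    have h6 : 0 < (2 : ℝ) ^ i := by positivity
    have h7 : (G * (2 : ℝ) ^ i) ^ 2 ≤ (2 * N) ^ 2 := by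
      apply pow_le_pow_left₀ (by positivity) h4
    rw [show 16 * (N : ℝ) ^ 2 * (1 / ((2 : ℝ) ^ i) ^ 2 * (1 / 4))
      = (2 * N) ^ 2 / ((2 : ℝ) ^ i) ^ 2 by ring]
    rw [le_div_iff₀ (by positivity)]
    calc G ^ 2 * ((2 : ℝ) ^ i) ^ 2 = (G * (2 : ℝ) ^ i) ^ 2 := by ring
      _ ≤ _ := h7

/-- expansion of the moments. -/
theorem sum_pow_eq (r n : ℕ) (t : ℝ) :
    (∑ m ∈ I n, e (t * Real.sqrt m)) ^ r = ∑ x ∈ IV r n, e (t * sig r x) := by
  have h0 : (∑ m ∈ I n, e (t * Real.sqrt m)) ^ r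
      = ∏ _i : Fin r, ∑ m ∈ I n, e (t * Real.sqrt m) := by simp
  unfold IV
  rw [h0, Finset.prod_univ_sum]
  apply Finset.sum_congr rfl
  intro x _
  unfold sig e
  rw [← Complex.exp_sum]
  congr 1
  rw [← Finset.sum_mul]
  congr 1
  push_cast
  rw [← Finset.mul_sum, ← Finset.mul_sum]

theorem conj_e (x : ℝ) : (starRingEnd ℂ) (e x) = e (-x) := by
  unfold e
  rw [← Complex.exp_conj]
  congr 1
  rw [map_mul, Complex.conj_ofReal, Complex.conj_I]
  push_cast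
  ring

theorem norm_pow_eq (r n : ℕ) (t : ℝ) :
    ((‖∑ m ∈ I n, e (t * Real.sqrt m)‖ ^ (2 * r) : ℝ) : ℂ)
      = ∑ p ∈ IV r n ×ˢ IV r n, e (t * (sig r p.1 - sig r p.2)) := by
  have h1 : ((‖∑ m ∈ I n, e (t * Real.sqrt m)‖ ^ (2 * r) : ℝ) : ℂ)
      = (∑ m ∈ I n, e (t * Real.sqrt m)) ^ r *
        (starRingEnd ℂ) ((∑ m ∈ I n, e (t * Real.sqrt m)) ^ r) := by
    rw [Complex.mul_conj, Complex.normSq_eq_norm_sq, norm_pow]
    push_cast
    ring
  rw [h1, sum_pow_eq, map_sum, Finset.sum_mul_sum, Finset.sum_product]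
  apply Finset.sum_congr rfl
  intro x _
  apply Finset.sum_congr rfl
  intro y _
  rw [conj_e, ← e_add]
  congr 1
  ring

/-- the weighted moment over all integers `|h| < 2N` as a sum over pairs of vectors. -/
theorem fejer (r n N : ℕ) :
    ∑ i ∈ Finset.range (2 * N), ∑ j ∈ Finset.range (2 * N),
        ‖∑ m ∈ I n, e (((i : ℝ) - j) * Real.sqrt m)‖ ^ (2 * r)
      = ∑ p ∈ IV r n ×ˢ IV r n,
          ‖∑ j ∈ Finset.range (2 * N), e (j * (sig r p.1 - sig r p.2))‖ ^ 2 := by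
  have h : ((∑ i ∈ Finset.range (2 * N), ∑ j ∈ Finset.range (2 * N),
        ‖∑ m ∈ I n, e (((i : ℝ) - j) * Real.sqrt m)‖ ^ (2 * r) : ℝ) : ℂ)
      = ((∑ p ∈ IV r n ×ˢ IV r n,
          ‖∑ j ∈ Finset.range (2 * N), e (j * (sig r p.1 - sig r p.2))‖ ^ 2 : ℝ) : ℂ) := by
    rw [Complex.ofReal_sum, Complex.ofReal_sum]
    have h1 : ∀ i ∈ Finset.range (2 * N), ((∑ j ∈ Finset.range (2 * N),
        ‖∑ m ∈ I n, e (((i : ℝ) - j) * Real.sqrt m)‖ ^ (2 * r) : ℝ) : ℂ)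
        = ∑ p ∈ IV r n ×ˢ IV r n, ∑ j ∈ Finset.range (2 * N),
          e (((i : ℝ) - j) * (sig r p.1 - sig r p.2)) := by
      intro i _
      rw [Complex.ofReal_sum, Finset.sum_comm]
      apply Finset.sum_congr rfl
      intro j _
      exact norm_pow_eq r n ((i : ℝ) - j)
    rw [Finset.sum_congr rfl h1, Finset.sum_comm]
    apply Finset.sum_congr rfl
    intro p _
    rw [← Complex.normSq_eq_norm_sq, ← Complex.mul_conj, map_sum, Finset.sum_mul_sum]
    apply Finset.sum_congr rfl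
    intro i _
    apply Finset.sum_congr rfl
    intro j _
    rw [conj_e, ← e_add]
    congr 1
    ring
  exact_mod_cast h

/-- lower bound of the weighted moment. -/
theorem mom_le (r n N : ℕ) (H : ℝ) (hH : 1 ≤ H) (hN : (N : ℝ) = ⌊H⌋ + 1) :
    (N : ℝ) * Mom r H n ≤ ∑ i ∈ Finset.range (2 * N), ∑ j ∈ Finset.range (2 * N),
        ‖∑ m ∈ I n, e (((i : ℝ) - j) * Real.sqrt m)‖ ^ (2 * r) := by
  have hNz : (N : ℤ) = ⌊H⌋ + 1 := by exact_mod_cast hN
  unfold Mom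
  rw [Finset.mul_sum]
  -- for every `h` the pairs `(j + h, j)`, `j < N`
  have h1 : ∀ h ∈ Finset.Icc ⌈H / 2⌉ ⌊H⌋,
      (N : ℝ) * ‖∑ m ∈ I n, e (h * Real.sqrt m)‖ ^ (2 * r)
        = ∑ j ∈ Finset.range N, ‖∑ m ∈ I n, e ((((h.toNat + j : ℕ) : ℝ) - j) * Real.sqrt m)‖ ^ (2 * r) := by
    intro h hh
    have hpos : 0 ≤ h := by
      rw [Finset.mem_Icc] at hh
      have : (0 : ℤ) ≤ ⌈H / 2⌉ := Int.ceil_nonneg (by linarith)
      omega
    have hc : ((h.toNat : ℕ) : ℝ) = (h : ℝ) := by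
      have := Int.toNat_of_nonneg hpos
      exact_mod_cast this
    have : ∀ j ∈ Finset.range N, ‖∑ m ∈ I n, e ((((h.toNat + j : ℕ) : ℝ) - j) * Real.sqrt m)‖ ^ (2 * r)
        = ‖∑ m ∈ I n, e (h * Real.sqrt m)‖ ^ (2 * r) := by
      intro j _
      push_cast
      rw [hc, add_sub_cancel_right]
    rw [Finset.sum_congr rfl this, Finset.sum_const, Finset.card_range, nsmul_eq_mul]
  rw [Finset.sum_congr rfl h1, ← Finset.sum_product', ← Finset.sum_product']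
  set f : ℕ × ℕ → ℝ := fun p => ‖∑ m ∈ I n, e (((p.1 : ℝ) - p.2) * Real.sqrt m)‖ ^ (2 * r) with hf
  have h2 : ∑ x ∈ Finset.Icc ⌈H / 2⌉ ⌊H⌋ ×ˢ Finset.range N,
      ‖∑ m ∈ I n, e ((((x.1.toNat + x.2 : ℕ) : ℝ) - x.2) * Real.sqrt m)‖ ^ (2 * r)
      = ∑ p ∈ (Finset.Icc ⌈H / 2⌉ ⌊H⌋ ×ˢ Finset.range N).image
          (fun x : ℤ × ℕ => (x.1.toNat + x.2, x.2)), f p := by
    rw [Finset.sum_image]
    intro x hx y hy hxy
    simp only [Finset.coe_product, Set.mem_prod, Finset.mem_coe, Finset.mem_Icc,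
      Finset.mem_range] at hx hy
    have : (0 : ℤ) ≤ ⌈H / 2⌉ := Int.ceil_nonneg (by linarith)
    simp only [Prod.mk.injEq] at hxy
    ext
    · have e1 : x.1.toNat = y.1.toNat := by omega
      omega
    · omega
  rw [h2]
  apply Finset.sum_le_sum_of_subset_of_nonneg
  · intro p hp
    rw [Finset.mem_image] at hp
    obtain ⟨x, hx, rfl⟩ := hp
    rw [Finset.mem_product, Finset.mem_Icc, Finset.mem_range] at hx
    rw [Finset.mem_product, Finset.mem_range, Finset.mem_range]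
    have : (0 : ℤ) ≤ ⌈H / 2⌉ := Int.ceil_nonneg (by linarith)
    constructor
    · show x.1.toNat + x.2 < 2 * N
      omega
    · show x.2 < 2 * N
      omega
  · intro p _ _
    positivity

/-- layered bound by the counting function. -/
theorem layered (r n N : ℕ) (hN : 1 ≤ N) :
    ∑ p ∈ IV r n ×ˢ IV r n,
        ‖∑ j ∈ Finset.range (2 * N), e (j * (sig r p.1 - sig r p.2))‖ ^ 2
      ≤ ∑ j ∈ Finset.range (2 * N + 1), 16 * (N : ℝ) ^ 2 * (1 / 4) ^ j *
          (A r n (min (1 / 2) ((2 : ℝ) ^ j / (4 * N))) : ℝ) := by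
  have h1 : ∀ p ∈ IV r n ×ˢ IV r n,
      ‖∑ j ∈ Finset.range (2 * N), e (j * (sig r p.1 - sig r p.2))‖ ^ 2
      ≤ ∑ j ∈ Finset.range (2 * N + 1), 16 * (N : ℝ) ^ 2 * (1 / 4) ^ j *
        (if nd (sig r p.1 - sig r p.2) ≤ min (1 / 2) ((2 : ℝ) ^ j / (4 * N)) then 1 else 0) :=
    fun p _ => layer N hN _
  refine (Finset.sum_le_sum h1).trans ?_
  rw [Finset.sum_comm]
  apply le_of_eq
  apply Finset.sum_congr rfl
  intro j _
  rw [← Finset.mul_sum]
  congr 1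
  rw [Finset.sum_ite, Finset.sum_const_zero, add_zero, Finset.sum_const, nsmul_eq_mul, mul_one]
  rfl

theorem mom (hM : MainStatement) : MomStatement := by
  intro r k hr hk ε hε
  obtain ⟨C, hC, h⟩ := hM r k hr hk ε hε
  refine ⟨64 * C, by positivity, fun n H hn hH => ?_⟩
  have hHf : (1 : ℤ) ≤ ⌊H⌋ := Int.le_floor.mpr (by exact_mod_cast hH)
  obtain ⟨N, hNz⟩ : ∃ N : ℕ, (N : ℤ) = ⌊H⌋ + 1 := ⟨(⌊H⌋ + 1).toNat, Int.toNat_of_nonneg (by omega)⟩
  have hNr : (N : ℝ) = ⌊H⌋ + 1 := by exact_mod_cast hNz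
  have hN1 : 1 ≤ N := by omega
  have hN0 : (0 : ℝ) < N := by exact_mod_cast hN1
  have hN2 : (N : ℝ) ≤ 2 * H := by
    have := Int.floor_le H
    rw [hNr]; linarith
  have hx : (0 : ℝ) < (n : ℝ) := by exact_mod_cast hn
  set a : ℝ := (n : ℝ) ^ (2 * (r : ℝ) - theta r k) with ha
  set b : ℝ := (n : ℝ) ^ (2 * r) with hb
  set w : ℝ := (n : ℝ) ^ ε with hw
  have ha0 : 0 < a := Real.rpow_pos_of_pos hx _
  have hb0 : 0 < b := by positivity
  have hw0 : 0 < w := Real.rpow_pos_of_pos hx _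
  have h1 := mom_le r n N H hH hNr
  rw [fejer] at h1
  have h2 := h1.trans (layered r n N hN1)
  have h3 : ∀ j ∈ Finset.range (2 * N + 1), 16 * (N : ℝ) ^ 2 * (1 / 4) ^ j *
          (A r n (min (1 / 2) ((2 : ℝ) ^ j / (4 * N))) : ℝ)
      ≤ 16 * (N : ℝ) ^ 2 * C * w * a * (1 / 2) ^ j + 4 * N * C * w * b * (1 / 2) ^ j := by
    intro j _
    have h4 := h n (min (1 / 2) ((2 : ℝ) ^ j / (4 * N))) hn (by positivity) (min_le_left _ _)
    have h5 : (A r n (min (1 / 2) ((2 : ℝ) ^ j / (4 * N))) : ℝ)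
        ≤ C * w * (a + b * ((2 : ℝ) ^ j / (4 * N))) := by
      refine h4.trans ?_
      have : min (1 / 2) ((2 : ℝ) ^ j / (4 * N)) ≤ (2 : ℝ) ^ j / (4 * N) := min_le_right _ _
      gcongr
    have h6 : (1 / 4 : ℝ) ^ j ≤ (1 / 2) ^ j := by
      apply pow_le_pow_left₀ (by norm_num) (by norm_num)
    have h7 : (1 / 4 : ℝ) ^ j * (2 : ℝ) ^ j = (1 / 2) ^ j := by
      rw [← mul_pow]; norm_num
    calc 16 * (N : ℝ) ^ 2 * (1 / 4) ^ j * (A r n (min (1 / 2) ((2 : ℝ) ^ j / (4 * N))) : ℝ)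
        ≤ 16 * (N : ℝ) ^ 2 * (1 / 4) ^ j * (C * w * (a + b * ((2 : ℝ) ^ j / (4 * N)))) := by
          gcongr
      _ = 16 * (N : ℝ) ^ 2 * C * w * a * (1 / 4) ^ j
          + 4 * N * C * w * b * ((1 / 4 : ℝ) ^ j * (2 : ℝ) ^ j) := by
          field_simp
          ring
      _ ≤ 16 * (N : ℝ) ^ 2 * C * w * a * (1 / 2) ^ j + 4 * N * C * w * b * (1 / 2) ^ j := by
          rw [h7]; gcongr
  have h8 := h2.trans (Finset.sum_le_sum h3)
  rw [Finset.sum_add_distrib, ← Finset.mul_sum, ← Finset.mul_sum] at h8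
  have h9 : ∑ j ∈ Finset.range (2 * N + 1), (1 / 2 : ℝ) ^ j ≤ 2 := by
    have := geom_sum_eq (x := (1 / 2 : ℝ)) (by norm_num) (2 * N + 1)
    rw [this]
    have h0 : (0 : ℝ) < (1 / 2) ^ (2 * N + 1) := by positivity
    have h1' : (((1 / 2 : ℝ)) ^ (2 * N + 1) - 1) / (1 / 2 - 1) = 2 - 2 * (1 / 2) ^ (2 * N + 1) := by
      ring
    rw [h1']
    linarith
  have h10 : (N : ℝ) * Mom r H n ≤ N * (64 * C * w * (H * a + b)) := by
    calc (N : ℝ) * Mom r H n ≤ 16 * (N : ℝ) ^ 2 * C * w * a * 2 + 4 * N * C * w * b * 2 := by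
          refine h8.trans ?_
          gcongr
      _ = N * (32 * C * w * (N * a) + 8 * C * w * b) := by ring
      _ ≤ N * (64 * C * w * (H * a + b)) := by
          apply mul_le_mul_of_nonneg_left _ hN0.le
          have : N * a ≤ 2 * H * a := by gcongr
          have h11 : 32 * C * w * (N * a) ≤ 32 * C * w * (2 * H * a) := by gcongr
          have h12 : 8 * C * w * b ≤ 64 * C * w * b := by gcongr; norm_num
          nlinarith
  exact le_of_mul_le_mul_left h10 hN0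

end H89

end Pool.Agent.Lib.MP_3ee548_nt.RS
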