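import Pool.Agent.Lib.MP_3ee548_nt.RS.Iface
import Pool.Agent.Lib.MP_3ee548_nt.RS.H02.Caseb
import Pool.Agent.Lib.MP_3ee548_nt.RS.H04.Mom2
import Pool.Agent.Lib.MP_3ee548_nt.RS.H14.Hb
import Pool.Agent.Lib.MP_3ee548_nt.RS.H14.Pcred
import Pool.Agent.Lib.MP_3ee548_nt.RS.H16.Shift
import Pool.Agent.Lib.MP_3ee548_nt.RS.H22.Poi
import Pool.Agent.Lib.MP_3ee548_nt.RS.H23.Inta
import Pool.Agent.Lib.MP_3ee548_nt.RS.H30.Qpos2
import Pool.Agent.Lib.MP_3ee548_nt.RS.H32.Appr
import Pool.Agent.Lib.MP_3ee548_nt.RS.H32.Fti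
import Pool.Agent.Lib.MP_3ee548_nt.RS.H32.Root2
import Pool.Agent.Lib.MP_3ee548_nt.RS.H32.Supb
import Pool.Agent.Lib.MP_3ee548_nt.RS.H32.Yfact
import Pool.Agent.Lib.MP_3ee548_nt.RS.H34.Casea
import Pool.Agent.Lib.MP_3ee548_nt.RS.H38.Lowb
import Pool.Agent.Lib.MP_3ee548_nt.RS.H38.Mom1
import Pool.Agent.Lib.MP_3ee548_nt.RS.H38.Trivb
import Pool.Agent.Lib.MP_3ee548_nt.RS.H40.Cov
import Pool.Agent.Lib.MP_3ee548_nt.RS.H45.Maxa
import Pool.Agent.Lib.MP_3ee548_nt.RS.H57.Pos1
import Pool.Agent.Lib.MP_3ee548_nt.RS.H57.Pos2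
import Pool.Agent.Lib.MP_3ee548_nt.RS.H59.Triva
import Pool.Agent.Lib.MP_3ee548_nt.RS.H63.Dual
import Pool.Agent.Lib.MP_3ee548_nt.RS.H65.Kder
import Pool.Agent.Lib.MP_3ee548_nt.RS.H65.Lowa
import Pool.Agent.Lib.MP_3ee548_nt.RS.H70.Asmb
import Pool.Agent.Lib.MP_3ee548_nt.RS.H70.Pc2
import Pool.Agent.Lib.MP_3ee548_nt.RS.H74.Iter
import Pool.Agent.Lib.MP_3ee548_nt.RS.H75.Ared
import Pool.Agent.Lib.MP_3ee548_nt.RS.H75.Dsq
import Pool.Agent.Lib.MP_3ee548_nt.RS.H76.Intb
import Pool.Agent.Lib.MP_3ee548_nt.RS.H76.Qpos1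
import Pool.Agent.Lib.MP_3ee548_nt.RS.H76.Root1
import Pool.Agent.Lib.MP_3ee548_nt.RS.H84.Wb
import Pool.Agent.Lib.MP_3ee548_nt.RS.H89.Main
import Pool.Agent.Lib.MP_3ee548_nt.RS.H89.Mom
import Pool.Agent.Lib.MP_3ee548_nt.RS.H92.Abel
import Pool.Agent.Lib.MP_3ee548_nt.RS.H93.Asma
import Pool.Agent.Lib.MP_3ee548_nt.RS.H94.Maxb

/-!
# Assembly of the RS board (MP_3ee548_nt)
-/

set_option autoImplicit false

namespace Pool.Agent.Lib.MP_3ee548_nt.RS.H89

theorem final_main : MainStatement := by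
  have hpoi : PoiStatement := H22.poi H32.Fti.fti
  have hroot1 : Root1Statement := H76.root1 H32.yfact
  have hroot2 : Root2Statement := H32.root2
  have hdual : DualStatement := H63.dual hpoi hroot1 hroot2
  have hshift : ShiftStatement := H16.shift
  have hcov : CovStatement := H40.cov hshift
  have hpos1 : Pos1Statement := H57.pos1
  have hpos2 : Pos2Statement := H57.pos2
  have hq1 : Qpos1Statement := H76.qpos1 hpos1
  have hq2 : Qpos2Statement := H30.qpos2 hpos2
  have hmaxa : MaxaStatement := H45.maxa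
  have hmaxb : MaxbStatement := H94.maxb hq2
  have habel : AbelStatement := H92.abel
  have hyf : YfactStatement := H32.yfact
  have hxf : XfactStatement := H32.xfact
  have hhb : HbStatement := H14.hb
  have hwb : WbStatement := H84.wb hyf hxf
  have happr : ApprStatement := H32.appr hyf
  have hca : CaseaStatement := H34.casea hdual hhb happr hmaxa habel
  have hcb : CasebStatement := H02.caseb hdual hwb hmaxa habel hxf
  have htriva : TrivaStatement := H59.triva
  have htrivb : TrivbStatement := H38.trivb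
  have hlowa : LowaStatement := H65.lowa hq2 htriva
  have hlowb : LowbStatement := H38.lowb
  have hinta : IntaStatement := H23.inta hca hmaxb hcov
  have hintb : IntbStatement := H76.intb hcb hmaxb hcov
  have hasma : AsmaStatement := H93.asma hq1 hlowa hinta
  have hasmb : AsmbStatement := H70.asmb hq1 hlowb hintb
  have hiter : IterStatement := H74.iter htrivb hasma hasmb
  have hsupb : SupbStatement := H32.supb H65.kder H75.dsq
  have hared : AredStatement := H75.ared hshift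
  have hpcred : PcredStatement := H14.pcred hshift
  have hm1 : Mom1Statement := H38.mom1 hpos1
  have hm2 : Mom2Statement := H04.mom2 hpos2
  have hpc2 : Pc2Statement := H70.pc2 hiter hcov hq1 hq2
  exact main hared hpcred hm1 hm2 hpc2 hsupb

theorem final_mom : MomStatement := mom final_main

end Pool.Agent.Lib.MP_3ee548_nt.RS.H89
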